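import Pool.Agent.Work.MP_98601e_ag.Framework
import Pool.Agent.Work.MP_98601e_ag.Odd
import Pool.Agent.Work.MP_98601e_ag.Two

/-!
# The Frobenius alpha invariant need not be attained

For every perfect field `k` of characteristic `p > 0` there is a boundary
`Δ = c₀[x = 0] + c₁[y = 0] + c₂[x + y = 0]` on `ℙ¹` such that `(ℙ¹, Δ)` is globally `F`-regular and
`fpt(S, Δ̃; f) · deg f > α_F(ℙ¹, Δ; 𝒪(1))` for every nonzero form `f ∈ S = k[x,y]` of positive
degree: one can take `c = (1/2, 1/2, 1/2)` for `p ≠ 2` and `c = (2/5, 1/3, 1/5)` for `p = 2`.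
-/

open MvPolynomial

namespace Pool.Agent.Results.MP_98601e_ag.NotAttained

open Pool.Agent.MP98601e

/-- The coefficients of `Δ`: `(2/5, 1/3, 1/5)` if `p = 2` and `(1/2, 1/2, 1/2)` otherwise. -/
def coeffs (p : ℕ) : Fin 3 → ℚ := if p = 2 then ![2 / 5, 1 / 3, 1 / 5] else ![1 / 2, 1 / 2, 1 / 2]

theorem result (k : Type*) [Field k] [PerfectField k] (p : ℕ) [Fact p.Prime] [CharP k p] :
    GloballyFRegular k p (coeffs p) ∧
    alphaF k p (coeffs p) = (if p = 2 then 8 / 15 else 1 / 4) ∧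
    ∀ (d : ℕ) (f : MvPolynomial (Fin 2) k), 0 < d → f ≠ 0 → f.IsHomogeneous d →
      alphaF k p (coeffs p) < fpt p (coeffs p) f * d := by
  by_cases hp : p = 2
  · subst hp
    have hc : coeffs 2 = ![2 / 5, 1 / 3, 1 / 5] := by simp [coeffs]
    rw [hc, if_pos rfl]
    have h := framework (k := k) 2 ![2 / 5, 1 / 3, 1 / 5] (by simp; norm_num) 4 (by norm_num)
      ![6, 5, 3] (by
        intro i
        fin_cases i
        · norm_num
        · norm_num
        · norm_num) (good_two k)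
    refine ⟨h.1, ?_, h.2.2⟩
    rw [h.2.1]
    have e1 : (1 : ℝ) - (((![2 / 5, 1 / 3, 1 / 5] : Fin 3 → ℚ) 0 +
        (![2 / 5, 1 / 3, 1 / 5] : Fin 3 → ℚ) 1 + (![2 / 5, 1 / 3, 1 / 5] : Fin 3 → ℚ) 2 : ℚ) : ℝ) / 2
        = 8 / 15 := by
      simp
      norm_num
    rw [e1, ENNReal.ofReal_div_of_pos (by norm_num)]
    norm_num
  · have hc : coeffs p = fun _ => 1 / 2 := by
      unfold coeffs
      rw [if_neg hp]
      ext i
      fin_cases i <;> simp
    rw [hc, if_neg hp]
    have hodd : p % 2 = 1 := ((Fact.out : p.Prime).eq_two_or_odd).resolve_left hp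
    have h := framework (k := k) p (fun _ => 1 / 2) (by norm_num) 1 one_pos
      (fun _ => p / 2) (by
        intro i
        have h1 : (p : ℚ) = 2 * ((p / 2 : ℕ) : ℚ) + 1 := by
          have : p = 2 * (p / 2) + 1 := by omega
          exact_mod_cast this
        rw [pow_one]
        linarith) (good_odd k p hp)
    refine ⟨h.1, ?_, h.2.2⟩
    rw [h.2.1]
    rw [show (1 : ℝ) - (((1 / 2 : ℚ) + 1 / 2 + 1 / 2 : ℚ) : ℝ) / 2 = 1 / 4 by norm_num]
    rw [ENNReal.ofReal_div_of_pos (by norm_num)]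
    norm_num

end Pool.Agent.Results.MP_98601e_ag.NotAttained
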